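import Pool.Agent.Y50.RD.Stm

/-! RD-W2: edges at the words `A # u $ B`. -/

set_option autoImplicit false

namespace Pool.Agent.Y684.RD

open Turing CategoryTheory
open Pool.Agent.H333R3.DG
open Pool.Agent.Y50.RD

/-- a block without letters of `L` and `R` lies in the middle -/
theorem block {L U R a p b : List ℕ} (h : L ++ U ++ R = a ++ p ++ b) (hp : p ≠ [])
    (hL : ∀ c ∈ p, c ∉ L) (hR : ∀ c ∈ p, c ∉ R) :
    ∃ a1 b1, a = L ++ a1 ∧ b = b1 ++ R ∧ U = a1 ++ p ++ b1 := by
  have h1 : L ++ (U ++ R) = a ++ (p ++ b) := by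
    rw [← List.append_assoc, h, List.append_assoc]
  obtain ⟨a', ha', h2⟩ : ∃ a', a = L ++ a' ∧ U ++ R = a' ++ (p ++ b) := by
    rcases List.append_eq_append_iff.1 h1 with ⟨a', ha', h2⟩ | ⟨c', hc', h2⟩
    · exact ⟨a', ha', h2⟩
    · rcases c' with _ | ⟨c, c'⟩
      · refine ⟨[], ?_, ?_⟩
        · rw [hc']; simp
        · rw [h2]
          simp
      · exfalso
        rcases p with _ | ⟨d, p⟩
        · exact hp rfl
        · simp only [List.cons_append, List.cons.injEq] at h2
          obtain ⟨rfl, -⟩ := h2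
          exact hL d List.mem_cons_self (by rw [hc']; simp)
  have h3 : (a' ++ p) ++ b = U ++ R := by rw [h2, List.append_assoc]
  rcases List.append_eq_append_iff.1 h3 with ⟨t, ht, h4⟩ | ⟨t, ht, h4⟩
  · exact ⟨a', t, ha', h4, ht⟩
  · rcases List.eq_nil_or_concat' t with rfl | ⟨t', c, rfl⟩
    · refine ⟨a', [], ha', ?_, ?_⟩
      · rw [h4]; simp
      · rw [List.append_nil] at ht
        rw [← ht]; simp
    · exfalso
      rcases List.eq_nil_or_concat' p with rfl | ⟨p', d, rfl⟩
      · exact hp rfl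
      · rw [← List.append_assoc, ← List.append_assoc] at ht
        have h5 := (List.append_inj' ht rfl).2
        simp only [List.cons.injEq, and_true] at h5
        subst h5
        exact hR d (by simp) (by rw [h4]; simp)

theorem sft_inj (N : ℕ) : Function.Injective (sft N) := by
  intro a b h
  simp only [sft] at h
  omega

theorem map_sft_inj (N : ℕ) {u v : List ℕ} (h : u.map (sft N) = v.map (sft N)) : u = v :=
  List.map_injective_iff.2 (sft_inj N) h

section

variable {Γ Λ : Type} [Inhabited Γ] [Inhabited Λ] [Fintype Γ] [Fintype Λ]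

/-- the machine letters in `A # u $ B` -/
theorem mem_qw {A B : List (Sy Γ Λ)} {u : List ℕ} {s : Sy Γ Λ} (h : en s ∈ qw A B u) :
    s ∈ A ∨ s ∈ B := by
  have hlt := en_lt s
  simp only [qw, List.mem_append, List.mem_map, List.mem_singleton, nm] at h
  rcases h with (((⟨t, ht, h⟩ | h) | ⟨k, _, h⟩) | (h | ⟨t, ht, h⟩))
  · exact Or.inl (en_inj h ▸ ht)
  · omega
  · simp only [sft] at h
    omega
  · omega
  · exact Or.inr (en_inj h ▸ ht)

theorem no_head {A B : List (Sy Γ Λ)} {u : List ℕ} (hA : heads A = 0) (hB : heads B = 0)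
    {s : Sy Γ Λ} (hs : s.isRight = true) : en s ∉ qw A B u := by
  intro h
  unfold heads at hA hB
  rw [List.countP_eq_zero] at hA hB
  rcases mem_qw h with h1 | h1
  · exact hA s h1 hs
  · exact hB s h1 hs

/-- the part of the `Q` rules -/
theorem qpart {A B : List (Sy Γ Λ)} {u q a b : List ℕ} (hq : q ≠ [])
    (h : qw A B u = a ++ q.map (sft (nm Γ Λ)) ++ b) :
    ∃ a' b', u = a' ++ q ++ b' ∧ a = A.map en ++ [nm Γ Λ] ++ a'.map (sft (nm Γ Λ)) ∧
      b = b'.map (sft (nm Γ Λ)) ++ ([nm Γ Λ + 1] ++ B.map en) := by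
  have hge : ∀ c ∈ q.map (sft (nm Γ Λ)), nm Γ Λ + 2 ≤ c := by
    intro c hc
    obtain ⟨k, _, rfl⟩ := List.mem_map.1 hc
    simp [sft]
  have hlA : ∀ (C : List (Sy Γ Λ)), ∀ c ∈ C.map en, c < nm Γ Λ := by
    intro C c hc
    obtain ⟨s, _, rfl⟩ := List.mem_map.1 hc
    exact en_lt s
  obtain ⟨a1, b1, h1, h2, h3⟩ := block h (by simpa using hq)
    (by
      intro c hc hc'
      have h5 := hge c hc
      rcases List.mem_append.1 hc' with h6 | h6
      · have := hlA _ c h6
        omega
      · rw [List.mem_singleton] at h6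
        omega)
    (by
      intro c hc hc'
      have h5 := hge c hc
      rcases List.mem_append.1 hc' with h6 | h6
      · rw [List.mem_singleton] at h6
        omega
      · have := hlA _ c h6
        omega)
  obtain ⟨c1, b', hu, hc1, hb'⟩ := List.map_eq_append_iff.1 h3
  obtain ⟨a', q', hc, ha', hq'⟩ := List.map_eq_append_iff.1 hc1
  have hqq := map_sft_inj _ hq'
  subst hqq
  exact ⟨a', b', by rw [hu, hc], by rw [h1, ha'], by rw [h2, hb']⟩

end

/-- **RD-W2** -/
theorem t : S_w2 := by
  intro Γ Λ _ _ _ _ M Q v hQ _ x y A B u hx hA hB _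
  have hmem : ∀ r ∈ (pq M Q v).2, (∃ (l : Λ) (i : Fin 3) (y' x' : TL Γ),
      r = ((lhs l i y' x').map en, rhq M v l i y' x')) ∨
      ∃ r' ∈ Q.2, r = (r'.1.map (sft (nm Γ Λ)), r'.2.map (sft (nm Γ Λ))) := by
    intro r hr
    simp only [pq, List.mem_append, mrules, qrules, List.mem_map] at hr
    rcases hr with ⟨p, _, rfl⟩ | ⟨r', hr', rfl⟩
    · exact Or.inl ⟨_, _, _, _, rfl⟩
    · exact Or.inr ⟨r', hr', rfl⟩
  constructor
  · intro e
    have hsrc := e.src
    rw [hx] at hsrc
    rcases hmem e.r e.mem with ⟨l, i, y', x', hr⟩ | ⟨r', hr', hr⟩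
    · exfalso
      refine no_head hA hB (s := (sq l i : Sy Γ Λ)) rfl (u := u) ?_
      rw [hsrc, hr]
      simp [lhs]
    · rw [hr] at hsrc
      obtain ⟨a', b', h1, h2, h3⟩ := qpart (hQ r' hr').1.1 hsrc
      exact ⟨a', b', r', hr', h1, h2, h3, hr⟩
  · intro e
    have htgt := e.tgt
    rw [hx] at htgt
    rcases hmem e.r e.mem with ⟨l, i, y', x', hr⟩ | ⟨r', hr', hr⟩
    · rcases hM : M l (rd x') with _ | p
      · right
        have hp : rhq M v l i y' x' = [en (.inl y' : Sy Γ Λ), nm Γ Λ] ++ v.map (sft (nm Γ Λ)) ++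
            [nm Γ Λ + 1, en (.inl x' : Sy Γ Λ)] := by
          unfold rhq
          rw [hM]
        rw [hr] at htgt
        simp only [hp] at htgt
        have h1 : A.map en ++ nm Γ Λ :: (u.map (sft (nm Γ Λ)) ++ (nm Γ Λ + 1) :: B.map en) =
            (e.a ++ [en (.inl y' : Sy Γ Λ)]) ++ nm Γ Λ :: (v.map (sft (nm Γ Λ)) ++
              (nm Γ Λ + 1) :: (en (.inl x' : Sy Γ Λ) :: e.b)) := by
          simpa [qw] using htgt
        have hN : ∀ (C : List (Sy Γ Λ)) (k : ℕ), nm Γ Λ + k ∉ C.map en := by
          intro C k hc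
          obtain ⟨s, _, hs⟩ := List.mem_map.1 hc
          have := en_lt s
          unfold nm at hs
          omega
        have hS : ∀ (w : List ℕ) (k : ℕ), k < 2 → nm Γ Λ + k ∉ w.map (sft (nm Γ Λ)) := by
          intro w k hk hc
          obtain ⟨s, _, hs⟩ := List.mem_map.1 hc
          simp only [sft] at hs
          omega
        have hN0 := fun C => hN C 0
        have hS0 := fun w => hS w 0 (by omega)
        simp only [add_zero] at hN0 hS0
        obtain ⟨h2, -, h3⟩ := (List.append_cons_inj_of_notMem (hN0 A)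
          (by
            rw [List.mem_append, List.mem_cons]
            rintro (h | h | h)
            · exact hS0 u h
            · omega
            · exact hN0 B h)).1 h1
        obtain ⟨h4, -, h5⟩ := (List.append_cons_inj_of_notMem (hS u 1 (by omega)) (hN B 1)).1 h3
        have huv := map_sft_inj _ h4
        obtain ⟨A', C, hAC, hA', hC⟩ := List.map_eq_append_iff.1 h2
        have hC' : C = [.inl y'] := map_en_inj (by rw [hC]; rfl)
        rcases B with _ | ⟨s, B'⟩
        · simp at h5
        · simp only [List.map_cons, List.cons.injEq] at h5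
          refine ⟨huv, A', B', l, i, y', x', hM, by rw [hAC, hC'], ?_, hA'.symm, h5.2.symm, hr⟩
          rw [en_inj h5.1]
      · exfalso
        have hp : rhq M v l i y' x' = (act p.1 i y' x' p.2).map en := by
          unfold rhq
          rw [hM]
        have h1 := heads_act p.1 i y' x' p.2
        unfold heads at h1
        have h2 : 0 < (act p.1 i y' x' p.2).countP Sum.isRight := by omega
        obtain ⟨s, hs, hs'⟩ := List.countP_pos_iff.1 h2
        refine no_head hA hB (s := s) hs' (u := u) ?_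
        rw [htgt, hr]
        simp only [hp, List.mem_append, List.mem_map]
        exact Or.inl (Or.inr ⟨s, hs, rfl⟩)
    · left
      rw [hr] at htgt
      obtain ⟨a', b', h1, h2, h3⟩ := qpart (hQ r' hr').2.1.1 htgt
      exact ⟨a', b', r', hr', h1, h2, h3, hr⟩

end Pool.Agent.Y684.RD
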